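import Pool.Agent.H68.WLStruct

set_option autoImplicit false

namespace Pool.Agent.H68.Old.LogLogBound

open Pool.Agent.H68.WL

/-- An upper bound on the Weisfeiler-Leman dimension of groups without nontrivial abelian normal
subgroups. `IsSocleFactor T` says that `T` is a minimal normal subgroup of a minimal normal
subgroup, and `DuplicatorWins k G H` is the hypothesis of the frozen statement: Duplicator wins
the bijective game with `k` pairs of pebbles.

Let `G` be such a group, all of whose `m` socle factors have order at least `t > 1` and are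
generated by `d` elements. Then `m ≤ log_t |G|`, and `d + 4 + ⌈log_t m⌉` pebbles tell `G` apart
from every non-isomorphic finite group. -/
theorem result (d t : ℕ) (ht : 1 < t) (G : Type) [Group G] [Finite G]
    (hss : ∀ N : Subgroup G, N.Normal → (∀ x ∈ N, ∀ y ∈ N, x * y = y * x) → N = ⊥)
    (hd : ∀ T : Subgroup G, IsSocleFactor T → ∃ s : Fin d → G,
      Subgroup.closure (Set.range s) = T)
    (hT : ∀ T : Subgroup G, IsSocleFactor T → t ≤ Nat.card T) :
    Nat.card {T : Subgroup G // IsSocleFactor T} ≤ Nat.log t (Nat.card G) ∧
    ∀ k : ℕ, d + 4 + Nat.clog t (Nat.card {T : Subgroup G // IsSocleFactor T}) ≤ k →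
      ∀ (H : Type) [Group H] [Finite H], DuplicatorWins k G H → Nonempty (G ≃* H) := by
  refine ⟨card_socleFactors hss ht hT, ?_⟩
  intro k hk H _ _ hD
  obtain ⟨p, hp⟩ := soc_gen (d := d)
    (L := Nat.clog t (Nat.card {T : Subgroup G // IsSocleFactor T})) hss hd (by
      intro T hTs
      exact (Nat.le_pow_clog ht _).trans (Nat.pow_le_pow_left (hT T hTs) _))
  refine identify_of_gen_fin (c := d + Nat.clog t (Nat.card {T : Subgroup G // IsSocleFactor T}))
    (by omega) hD p ?_ ?_
  · rw [hp]; exact soc_normal
  · rw [hp]; exact soc_centralizer hss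

end Pool.Agent.H68.Old.LogLogBound
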